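import Mathlib

namespace Pool.Agent.Results.MP_aa7c57_an.Dich

/-- `x` is a positive solution; `x (n + 2)` is the term with index `n`. -/
def Sol (C : ℕ → ℝ) (x : ℕ → ℝ) : Prop :=
  (∀ i, i ≤ 2 → 0 < x i) ∧ ∀ n, x (n + 3) = 1 / (C n * x (n + 1) + x n)

theorem pos {C x : ℕ → ℝ} (hB : ∀ n, 0 ≤ C n) (h : Sol C x) : ∀ i, 0 < x i := by
  intro i
  induction i using Nat.strong_induction_on with
  | _ i ih =>
    by_cases hi : i ≤ 2
    · exact h.1 i hi
    · obtain ⟨n, rfl⟩ : ∃ n, i = n + 3 := ⟨i - 3, by omega⟩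
      rw [h.2 n]
      have h1 := ih (n + 1) (by omega)
      have h2 := ih n (by omega)
      have h3 := hB n
      positivity

theorem comp {B x y : ℕ → ℝ} (hB : ∀ n, 0 ≤ B n) (hx : Sol B x) (hy : Sol B y) :
    ∃ K : ℝ, 0 < K ∧ ∀ i, y i ≤ K * x i ∧ x i ≤ K * y i := by
  have px := pos hB hx
  have py := pos hB hy
  set K : ℝ := ∑ i ∈ Finset.range (2 + 1), (y i / x i + x i / y i) with hK
  have hKi : ∀ i, i ≤ 2 → y i / x i + x i / y i ≤ K := fun i hi =>
    Finset.single_le_sum (f := fun i => y i / x i + x i / y i)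
      (fun j _ => by have := px j; have := py j; positivity) (Finset.mem_range.2 (by omega))
  have hK0 : 0 < K := lt_of_lt_of_le (by have := px 0; have := py 0; positivity) (hKi 0 (by omega))
  refine ⟨K, hK0, fun i => ?_⟩
  induction i using Nat.strong_induction_on with
  | _ i ih =>
    by_cases hi : i ≤ 2
    · have h := hKi i hi
      have a := px i
      have b := py i
      have c1 : 0 < y i / x i := by positivity
      have c2 : 0 < x i / y i := by positivity
      constructor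
      · exact (div_le_iff₀ a).1 (by linarith)
      · exact (div_le_iff₀ b).1 (by linarith)
    · obtain ⟨n, rfl⟩ : ∃ n, i = n + 3 := ⟨i - 3, by omega⟩
      rw [hx.2 n, hy.2 n]
      have h1 := ih (n + 1) (by omega)
      have h2 := ih n (by omega)
      have h3 := hB n
      have a : 0 < B n * x (n + 1) + x n := by have := px (n + 1); have := px n; positivity
      have b : 0 < B n * y (n + 1) + y n := by have := py (n + 1); have := py n; positivity
      have e1 := mul_le_mul_of_nonneg_left h1.1 h3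
      have e2 := mul_le_mul_of_nonneg_left h1.2 h3
      constructor
      · rw [mul_one_div, div_le_div_iff₀ b a]; nlinarith [h2.2]
      · rw [mul_one_div, div_le_div_iff₀ a b]; nlinarith [h2.1]

theorem allb {C x : ℕ → ℝ} (hB : ∀ n, 0 ≤ C n) (hx : Sol C x) (hb : BddAbove (Set.range x)) :
    ∀ y, Sol C y → BddAbove (Set.range y) := by
  obtain ⟨M, hM⟩ := hb
  intro y hy
  obtain ⟨K, hK, hc⟩ := comp hB hx hy
  refine ⟨K * M, ?_⟩
  rintro _ ⟨i, rfl⟩
  exact (hc i).1.trans (mul_le_mul_of_nonneg_left (hM ⟨i, rfl⟩) hK.le)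

noncomputable def ph (s : ℝ) : ℝ := (-s + Real.sqrt (s ^ 2 + 4)) / 2

theorem ph_spec {s : ℝ} (hs : 0 ≤ s) : 0 < ph s ∧ ph s ≤ 1 ∧ ph s * (s + ph s) = 1 := by
  have h1 : Real.sqrt (s ^ 2 + 4) ^ 2 = s ^ 2 + 4 := Real.sq_sqrt (by positivity)
  have h2 : s < Real.sqrt (s ^ 2 + 4) := Real.lt_sqrt_of_sq_lt (by linarith)
  have h3 : Real.sqrt (s ^ 2 + 4) ≤ s + 2 := Real.sqrt_le_iff.2 ⟨by linarith, by nlinarith⟩
  unfold ph
  refine ⟨by linarith, by linarith, by nlinarith⟩

theorem perk {C : ℕ → ℝ} {k : ℕ} (hp : ∀ n, C (n + k) = C n) (m r : ℕ) : C (k * m + r) = C r := by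
  induction m with
  | zero => simp
  | succ m ih => rw [show k * (m + 1) + r = k * m + r + k by ring, hp, ih]

theorem three {C : ℕ → ℝ} (hB : ∀ n, 0 ≤ C n) (hp : ∀ n, C (n + 3) = C n) :
    ∃ x, Sol C x ∧ BddAbove (Set.range x) := by
  have hph : Continuous ph := by unfold ph; fun_prop
  have h0 := hB 0
  have h1 := hB 1
  have h2 := hB 2
  have hc : ContinuousOn (fun a : ℝ => a - ph (C 0 * ph (C 1 * ph (C 2 * a)))) (Set.Icc 0 1) := by
    fun_prop
  have sp : ∀ a : ℝ, 0 ≤ a → 0 ≤ C 2 * a ∧ 0 ≤ C 1 * ph (C 2 * a) ∧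
      0 ≤ C 0 * ph (C 1 * ph (C 2 * a)) := fun a ha => by
    have a1 : 0 ≤ C 2 * a := mul_nonneg h2 ha
    have a2 : 0 ≤ C 1 * ph (C 2 * a) := mul_nonneg h1 (ph_spec a1).1.le
    exact ⟨a1, a2, mul_nonneg h0 (ph_spec a2).1.le⟩
  obtain ⟨a, ha, hq⟩ := intermediate_value_Icc (by norm_num) hc
    (show (0 : ℝ) ∈ Set.Icc _ _ from ⟨by have := (ph_spec (sp 0 le_rfl).2.2).1; linarith,
      by have := (ph_spec (sp 1 zero_le_one).2.2).2.1; linarith⟩)
  have hq' : ph (C 0 * ph (C 1 * ph (C 2 * a))) = a := by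
    have : a - ph (C 0 * ph (C 1 * ph (C 2 * a))) = 0 := hq
    linarith
  have s2 := ph_spec (sp a ha.1).1
  have s1 := ph_spec (sp a ha.1).2.1
  have s0 := ph_spec (sp a ha.1).2.2
  rw [hq'] at s0
  generalize ph (C 1 * ph (C 2 * a)) = b at s0 s1
  generalize ph (C 2 * a) = c at s1 s2
  have a0 := s0.1
  have b0 := s1.1
  have c0 := s2.1
  refine ⟨fun i => if i % 3 = 0 then a else if i % 3 = 1 then b else c,
    ⟨fun i _ => ?_, fun n => ?_⟩, 1, ?_⟩
  · dsimp only
    split_ifs <;> assumption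
  · obtain ⟨m, rfl | rfl | rfl⟩ : ∃ m, n = 3 * m + 0 ∨ n = 3 * m + 1 ∨ n = 3 * m + 2 :=
      ⟨n / 3, by omega⟩
    · simp only [perk hp m 0]
      rw [if_pos (by omega), if_neg (by omega), if_pos (by omega), if_pos (by omega),
        eq_div_iff (by positivity)]
      exact s0.2.2
    · simp only [perk hp m 1]
      rw [if_neg (by omega), if_pos (by omega), if_neg (by omega), if_neg (by omega),
        if_neg (by omega), if_pos (by omega), eq_div_iff (by positivity)]
      exact s1.2.2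
    · simp only [perk hp m 2]
      rw [if_neg (by omega), if_neg (by omega), if_pos (by omega), if_neg (by omega),
        if_neg (by omega), eq_div_iff (by positivity)]
      exact s2.2.2
  · rintro _ ⟨i, rfl⟩
    dsimp only
    split_ifs
    · exact s0.2.1
    · exact s1.2.1
    · exact s2.2.1

theorem twopos {C : ℕ → ℝ} (hp : ∀ n, C (n + 2) = C n) (h0 : 0 < C 0) (h1 : 0 < C 1) :
    ∃ x, Sol C x ∧ BddAbove (Set.range x) := by
  obtain ⟨t, ht, hq⟩ : ∃ t : ℝ, 0 < t ∧ t ^ 2 * C 1 = C 0 := by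
    refine ⟨Real.sqrt (C 0 / C 1), Real.sqrt_pos.2 (by positivity), ?_⟩
    rw [Real.sq_sqrt (by positivity)]
    field_simp
  obtain ⟨v, hv, hv2⟩ : ∃ v : ℝ, 0 < v ∧ v ^ 2 * (C 0 + t) = 1 := by
    refine ⟨Real.sqrt (1 / (C 0 + t)), Real.sqrt_pos.2 (by positivity), ?_⟩
    rw [Real.sq_sqrt (by positivity)]
    field_simp
  refine ⟨fun i => if i % 2 = 0 then t * v else v, ⟨fun i _ => ?_, fun n => ?_⟩, max v (t * v), ?_⟩
  · dsimp only
    split_ifs <;> positivity
  · obtain ⟨m, rfl | rfl⟩ : ∃ m, n = 2 * m + 0 ∨ n = 2 * m + 1 := ⟨n / 2, by omega⟩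
    · simp only [perk hp m 0]
      rw [if_neg (by omega), if_neg (by omega), if_pos (by omega), eq_div_iff (by positivity)]
      linear_combination hv2
    · simp only [perk hp m 1]
      rw [if_pos (by omega), if_pos (by omega), if_neg (by omega), eq_div_iff (by positivity)]
      linear_combination hv2 + v ^ 2 * hq
  · rintro _ ⟨i, rfl⟩
    dsimp only
    split_ifs
    · exact le_max_right _ _
    · exact le_max_left _ _

/-- zero coefficient on the class `r` mod 2, at least `c > 0` on the other class: unbounded -/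
theorem twozero {C x : ℕ → ℝ} (hB : ∀ n, 0 ≤ C n) (r : ℕ) (c : ℝ) (hc : 0 < c)
    (h0 : ∀ m, C (2 * m + r) = 0) (h1 : ∀ m, C (2 * m + r + 1) = c) (hx : Sol C x) :
    ¬ BddAbove (Set.range x) := by
  rintro ⟨M, hM⟩
  have px := pos hB hx
  have hM' : ∀ i, x i ≤ M := fun i => hM ⟨i, rfl⟩
  have M0 : 0 < M := (px 0).trans_le (hM' 0)
  have e0 : ∀ m, x (2 * m + r + 3) = 1 / x (2 * m + r) := fun m => by
    rw [hx.2, h0]; simp
  have lo : ∀ m, 1 / M ≤ x (2 * m + r) := fun m => by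
    have a := hM' (2 * m + r + 3)
    rw [e0] at a
    exact (one_div_le M0 (px _)).2 a
  have st : ∀ m, x (2 * m + r + 1) + c * (1 / M) ≤ x (2 * (m + 3) + r + 1) := fun m => by
    have a := e0 (m + 2)
    have b := hx.2 (2 * m + r + 1)
    rw [h1] at b
    rw [show 2 * (m + 3) + r + 1 = 2 * (m + 2) + r + 3 by ring, a,
      show 2 * (m + 2) + r = 2 * m + r + 1 + 3 by ring, b, one_div_one_div,
      show 2 * m + r + 1 + 1 = 2 * (m + 1) + r by ring]
    have := mul_le_mul_of_nonneg_left (lo (m + 1)) hc.le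
    linarith
  have gr : ∀ j : ℕ, j * (c * (1 / M)) ≤ x (2 * (3 * j) + r + 1) := by
    intro j
    induction j with
    | zero => simpa using (px _).le
    | succ j ih =>
      have := st (3 * j)
      rw [show 3 * (j + 1) = 3 * j + 3 by ring]
      push_cast
      linarith
  have hp : 0 < c * (1 / M) := by positivity
  obtain ⟨j, hj⟩ := exists_nat_gt (M / (c * (1 / M)))
  rw [div_lt_iff₀ hp] at hj
  have := gr j
  have := hM' (2 * (3 * j) + r + 1)
  linarith

theorem exsol {C : ℕ → ℝ} : ∃ x, Sol C x := by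
  let f : ℕ → ℝ × ℝ × ℝ := fun n =>
    Nat.rec (1, 1, 1) (fun k s => (s.2.1, s.2.2, 1 / (C k * s.2.1 + s.1))) n
  refine ⟨fun n => (f n).1, fun i hi => ?_, fun n => rfl⟩
  interval_cases i <;> exact one_pos

open Filter in
theorem lims {C x : ℕ → ℝ} (hB : ∀ n, 0 ≤ C n) (hp : ∀ n, C (n + 5) = C n) (hx : Sol C x)
    (hb : BddAbove (Set.range x)) : ∃ u l : ℕ → ℝ, (∀ r, 0 < u r) ∧ (∀ r, 0 < l r) ∧
      (∀ r, u (r + 5) = u r) ∧ (∀ r, l (r + 5) = l r) ∧
      (∀ r, u (r + 3) * (C r * l (r + 1) + l r) ≤ 1) ∧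
      (∀ r, 1 ≤ l (r + 3) * (C r * u (r + 1) + u r)) := by
  obtain ⟨M, hM⟩ := hb
  have px := pos hB hx
  have hM' : ∀ j, x j ≤ M := fun j => hM ⟨j, rfl⟩
  have M0 : 0 < M := (px 0).trans_le (hM' 0)
  have bu : ∀ r, IsBoundedUnder (· ≤ ·) atTop (fun m : ℕ => x (5 * m + r)) := fun r =>
    isBoundedUnder_of ⟨M, fun m => hM' _⟩
  have bl : ∀ r, IsBoundedUnder (· ≥ ·) atTop (fun m : ℕ => x (5 * m + r)) := fun r =>
    isBoundedUnder_of ⟨0, fun m => (px _).le⟩
  set u : ℕ → ℝ := fun r => limsup (fun m : ℕ => x (5 * m + r)) atTop with hu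
  set l : ℕ → ℝ := fun r => liminf (fun m : ℕ => x (5 * m + r)) atTop with hl
  have u5 : ∀ r, u (r + 5) = u r := fun r => by
    have := limsup_nat_add (fun m : ℕ => x (5 * m + r)) 1
    simp only [hu]
    rw [← this]
    congr 1
    ext m
    congr 1
    ring
  have l5 : ∀ r, l (r + 5) = l r := fun r => by
    have := liminf_nat_add (fun m : ℕ => x (5 * m + r)) 1
    simp only [hl]
    rw [← this]
    congr 1
    ext m
    congr 1
    ring
  have rec3 : ∀ m r, x (5 * m + (r + 3)) = 1 / (C r * x (5 * m + (r + 1)) + x (5 * m + r)) := by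
    intro m r
    have := hx.2 (5 * m + r)
    rw [perk hp] at this
    exact this
  have l0 : ∀ r, 0 < l r := fun r => by
    rw [← l5 r]
    have c := hB (r + 2)
    refine lt_of_lt_of_le (show 0 < 1 / (C (r + 2) * M + M) by positivity) ?_
    refine le_liminf_of_le (bu _).isCoboundedUnder_ge (Eventually.of_forall fun m => ?_)
    rw [show r + 5 = r + 2 + 3 by ring, rec3]
    have q1 := px (5 * m + (r + 2 + 1))
    have q2 := px (5 * m + (r + 2))
    refine one_div_le_one_div_of_le (by positivity) ?_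
    have := mul_le_mul_of_nonneg_left (hM' (5 * m + (r + 2 + 1))) c
    have := hM' (5 * m + (r + 2))
    linarith
  have u0 : ∀ r, 0 < u r := fun r => (l0 r).trans_le (liminf_le_limsup (bu r) (bl r))
  refine ⟨u, l, u0, l0, u5, l5, fun r => ?_, fun r => ?_⟩
  · have c := hB r
    have a1 := l0 (r + 1)
    have a2 := l0 r
    have S0 : 0 < C r * l (r + 1) + l r := by positivity
    by_contra hn
    push Not at hn
    obtain ⟨θ, t1, t2⟩ := exists_between ((div_lt_one (by linarith)).2 hn)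
    have t0 : 0 < θ := lt_trans (by positivity) t1
    have e1 := eventually_lt_of_lt_liminf (show θ * l (r + 1) < l (r + 1) by nlinarith) (bl (r + 1))
    have e2 := eventually_lt_of_lt_liminf (show θ * l r < l r by nlinarith) (bl r)
    have : u (r + 3) ≤ 1 / (θ * (C r * l (r + 1) + l r)) := by
      refine limsup_le_of_le (bl _).isCoboundedUnder_le ?_
      filter_upwards [e1, e2] with m h1 h2
      rw [rec3]
      refine one_div_le_one_div_of_le (by positivity) ?_
      have := mul_le_mul_of_nonneg_left h1.le c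
      nlinarith
    rw [le_div_iff₀ (by positivity)] at this
    rw [div_lt_iff₀ (by linarith)] at t1
    nlinarith
  · have c := hB r
    have a1 := u0 (r + 1)
    have a2 := u0 r
    have a3 := l0 (r + 3)
    have S0 : 0 < C r * u (r + 1) + u r := by positivity
    by_contra hn
    push Not at hn
    obtain ⟨θ, t1, t2⟩ := exists_between ((one_lt_div (by positivity)).2 hn)
    have t0 : 0 < θ := by linarith
    have e1 := eventually_lt_of_limsup_lt (show u (r + 1) < θ * u (r + 1) by nlinarith) (bu (r + 1))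
    have e2 := eventually_lt_of_limsup_lt (show u r < θ * u r by nlinarith) (bu r)
    have : 1 / (θ * (C r * u (r + 1) + u r)) ≤ l (r + 3) := by
      refine le_liminf_of_le (bu _).isCoboundedUnder_ge ?_
      filter_upwards [e1, e2] with m h1 h2
      rw [rec3]
      have q1 := px (5 * m + (r + 1))
      have q2 := px (5 * m + r)
      refine one_div_le_one_div_of_le (by positivity) ?_
      have := mul_le_mul_of_nonneg_left h1.le c
      nlinarith
    rw [div_le_iff₀ (by positivity)] at this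
    rw [lt_div_iff₀ (by positivity)] at t2
    nlinarith

/-- the alternating expression attached to the index `n` -/
def E5 (C : ℕ → ℝ) (n : ℕ) : ℝ :=
  1 - C n + C n * C (n + 3) - C n * C (n + 3) * C (n + 1) +
    C n * C (n + 3) * C (n + 1) * C (n + 4)

theorem fiveN {C x : ℕ → ℝ} (hB : ∀ n, 0 ≤ C n) (hp : ∀ n, C (n + 5) = C n) (hx : Sol C x)
    (hb : BddAbove (Set.range x)) (n : ℕ) : 0 < E5 C n := by
  obtain ⟨u, l, u0, l0, u5, l5, k1, k2⟩ := lims hB hp hx hb
  have s1 := k1 n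
  have s2 := k2 (n + 3)
  have s3 := k1 (n + 1)
  have s4 := k2 (n + 4)
  have s5 := k1 (n + 2)
  rw [show n + 3 + 3 = n + 1 + 5 by ring, l5, show n + 3 + 1 = n + 4 by ring] at s2
  rw [show n + 1 + 3 = n + 4 by ring, show n + 1 + 1 = n + 2 by ring] at s3
  rw [show n + 4 + 3 = n + 2 + 5 by ring, l5, show n + 4 + 1 = n + 5 by ring, u5] at s4
  rw [show n + 2 + 3 = n + 5 by ring, u5, show n + 2 + 1 = n + 3 by ring] at s5
  have c0 := hB n
  have c1 := hB (n + 1)
  have c2 := hB (n + 2)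
  have c3 := hB (n + 3)
  have c4 := hB (n + 4)
  have p0 : 0 < u (n + 3) * l n := mul_pos (u0 _) (l0 _)
  have p5 : u n * l (n + 2) ≤ 1 := by
    nlinarith [mul_nonneg c2 (mul_pos (u0 n) (l0 (n + 3))).le]
  have p4 : 1 - C (n + 4) ≤ u (n + 4) * l (n + 2) := by
    nlinarith [mul_le_mul_of_nonneg_left p5 c4]
  have p3 : u (n + 4) * l (n + 1) ≤ 1 - C (n + 1) * (1 - C (n + 4)) := by
    nlinarith [mul_le_mul_of_nonneg_left p4 c1]
  have p2 : 1 - C (n + 3) * (1 - C (n + 1) * (1 - C (n + 4))) ≤ u (n + 3) * l (n + 1) := by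
    nlinarith [mul_le_mul_of_nonneg_left p3 c3]
  unfold E5
  nlinarith [mul_le_mul_of_nonneg_left p2 c0]

theorem fiveS {C : ℕ → ℝ} (hB : ∀ n, 0 ≤ C n) (hp : ∀ n, C (n + 5) = C n)
    (h : ∀ n, 0 < E5 C n) : ∃ x, Sol C x ∧ BddAbove (Set.range x) := by
  have h0 := hB 0
  have h1 := hB 1
  have h2 := hB 2
  have h3 := hB 3
  have h4 := hB 4
  have c5 : C 5 = C 0 := hp 0
  have c6 : C 6 = C 1 := hp 1
  have c7 : C 7 = C 2 := hp 2
  have c8 : C 8 = C 3 := hp 3
  have hD : 0 < 1 + C 0 * C 1 * C 2 * C 3 * C 4 := by positivity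
  obtain ⟨G0, G1, G2, G3, G4, g0, g1, g2, g3, g4, e0, e1, e2, e3, e4⟩ :
      ∃ G0 G1 G2 G3 G4 : ℝ, 0 < G0 ∧ 0 < G1 ∧ 0 < G2 ∧ 0 < G3 ∧ 0 < G4 ∧
      C 0 * G0 + G2 = 1 ∧ C 1 * G1 + G3 = 1 ∧ C 2 * G2 + G4 = 1 ∧ C 3 * G3 + G0 = 1 ∧
      C 4 * G4 + G1 = 1 := by
    refine ⟨_, _, _, _, _, div_pos (h 3) hD, div_pos (h 4) hD, div_pos (h 0) hD,
      div_pos (h 1) hD, div_pos (h 2) hD, ?_, ?_, ?_, ?_, ?_⟩ <;>
    · simp only [E5, Nat.reduceAdd, c5, c6, c7, c8]
      field_simp
      ring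
  obtain ⟨a, a0, ha⟩ : ∃ a : ℝ, 0 < a ∧ a ^ 2 * (G1 * G0) = G4 * G3 * G2 := by
    refine ⟨Real.sqrt (G4 * G3 * G2 / (G1 * G0)), Real.sqrt_pos.2 (by positivity), ?_⟩
    rw [Real.sq_sqrt (by positivity)]
    field_simp
  obtain ⟨c, c0, hc⟩ : ∃ c : ℝ, 0 < c ∧ a * c = G4 := ⟨G4 / a, by positivity, by field_simp⟩
  obtain ⟨e, e0', he⟩ : ∃ e : ℝ, 0 < e ∧ c * e = G1 := ⟨G1 / c, by positivity, by field_simp⟩
  obtain ⟨b, b0, hb⟩ : ∃ b : ℝ, 0 < b ∧ e * b = G3 := ⟨G3 / e, by positivity, by field_simp⟩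
  obtain ⟨d, d0, hd⟩ : ∃ d : ℝ, 0 < d ∧ a * d = G2 := ⟨G2 / a, by positivity, by field_simp⟩
  have hq : b * d = G0 := by
    have : a ^ 2 * G1 * (b * d) = a ^ 2 * G1 * G0 := by
      rw [mul_assoc (a ^ 2) G1 G0, ha, ← hb, ← hc, ← hd, ← he]; ring
    exact mul_left_cancel₀ (by positivity) this
  refine ⟨fun i => if i % 5 = 0 then a else if i % 5 = 1 then b else if i % 5 = 2 then c else
    if i % 5 = 3 then d else e, ⟨fun i _ => ?_, fun n => ?_⟩, a + b + c + d + e, ?_⟩
  · dsimp only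
    split_ifs <;> assumption
  · obtain ⟨m, rfl | rfl | rfl | rfl | rfl⟩ : ∃ m, n = 5 * m + 0 ∨ n = 5 * m + 1 ∨
        n = 5 * m + 2 ∨ n = 5 * m + 3 ∨ n = 5 * m + 4 := ⟨n / 5, by omega⟩
    · simp only [perk hp m 0, show (5 * m + 0 + 3) % 5 = 3 by omega,
        show (5 * m + 0 + 1) % 5 = 1 by omega, show (5 * m + 0) % 5 = 0 by omega]
      norm_num only [if_true, if_false]
      rw [eq_div_iff (by positivity)]
      linear_combination e0 + C 0 * hq + hd
    · simp only [perk hp m 1, show (5 * m + 1 + 3) % 5 = 4 by omega,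
        show (5 * m + 1 + 1) % 5 = 2 by omega, show (5 * m + 1) % 5 = 1 by omega]
      norm_num only [if_true, if_false]
      rw [eq_div_iff (by positivity)]
      linear_combination e1 + C 1 * he + hb
    · simp only [perk hp m 2, show (5 * m + 2 + 3) % 5 = 0 by omega,
        show (5 * m + 2 + 1) % 5 = 3 by omega, show (5 * m + 2) % 5 = 2 by omega]
      norm_num only [if_true, if_false]
      rw [eq_div_iff (by positivity)]
      linear_combination e2 + C 2 * hd + hc
    · simp only [perk hp m 3, show (5 * m + 3 + 3) % 5 = 1 by omega,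
        show (5 * m + 3 + 1) % 5 = 4 by omega, show (5 * m + 3) % 5 = 3 by omega]
      norm_num only [if_true, if_false]
      rw [eq_div_iff (by positivity)]
      linear_combination e3 + C 3 * hb + hq
    · simp only [perk hp m 4, show (5 * m + 4 + 3) % 5 = 2 by omega,
        show (5 * m + 4 + 1) % 5 = 0 by omega, show (5 * m + 4) % 5 = 4 by omega]
      norm_num only [if_true, if_false]
      rw [eq_div_iff (by positivity)]
      linear_combination e4 + C 4 * hc + he
  · rintro _ ⟨i, rfl⟩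
    dsimp only
    split_ifs <;> linarith

noncomputable def Pf (a b t : ℝ) : ℝ :=
  2 * (1 - t) / (a + b + Real.sqrt ((a - b) ^ 2 + 4 * (a * b) * t))

theorem Pf_spec {a b t : ℝ} (ha : 0 ≤ a) (hb : 0 ≤ b) (hs : 0 < a + b) (t0 : 0 < t) (t1 : t < 1) :
    0 < Pf a b t ∧ 0 < 1 - a * Pf a b t ∧ 0 < 1 - b * Pf a b t ∧
      (1 - a * Pf a b t) * (1 - b * Pf a b t) = t := by
  have hw := Real.sq_sqrt (show 0 ≤ (a - b) ^ 2 + 4 * (a * b) * t by positivity)
  have w0 := Real.sqrt_nonneg ((a - b) ^ 2 + 4 * (a * b) * t)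
  have hP : Pf a b t * (a + b + Real.sqrt ((a - b) ^ 2 + 4 * (a * b) * t)) = 2 * (1 - t) := by
    unfold Pf
    field_simp
  have P0 : 0 < Pf a b t := by
    unfold Pf
    exact div_pos (by linarith) (by linarith)
  generalize Real.sqrt ((a - b) ^ 2 + 4 * (a * b) * t) = w at hw w0 hP
  generalize Pf a b t = P at hP P0
  have e : (1 - a * P) * (1 - b * P) = t := by
    have h2 : (a + b + w) ^ 2 * ((1 - a * P) * (1 - b * P)) = (a + b + w) ^ 2 * t := by
      linear_combination (a * b * (P * (a + b + w) + 2 * (1 - t)) - (a + b) * (a + b + w)) * hP +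
        (1 - t) * hw
    exact mul_left_cancel₀ (by positivity) h2
  have s : 0 < (1 - a * P) + (1 - b * P) := by nlinarith [mul_nonneg P0.le w0]
  refine ⟨P0, ?_, ?_, e⟩
  · by_contra h
    push Not at h
    nlinarith [mul_nonneg (neg_nonneg.2 h) (show 0 ≤ 1 - b * P by linarith)]
  · by_contra h
    push Not at h
    nlinarith [mul_nonneg (neg_nonneg.2 h) (show 0 ≤ 1 - a * P by linarith)]

theorem Pf_cont {a b : ℝ} (hs : 0 < a + b) : Continuous (Pf a b) := by
  unfold Pf
  refine Continuous.div (by fun_prop) (by fun_prop) fun t => ?_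
  have := Real.sqrt_nonneg ((a - b) ^ 2 + 4 * (a * b) * t)
  linarith

theorem fourS {C : ℕ → ℝ} (hB : ∀ n, 0 ≤ C n) (hp : ∀ n, C (n + 4) = C n)
    (s0 : 0 < C 0 + C 2) (s1 : 0 < C 1 + C 3) : ∃ x, Sol C x ∧ BddAbove (Set.range x) := by
  have h0 := hB 0
  have h1 := hB 1
  have h2 := hB 2
  have h3 := hB 3
  have hc : ContinuousOn (fun t : ℝ => t - Pf (C 0) (C 2) t * Pf (C 1) (C 3) t) (Set.Icc 0 1) :=
    (continuous_id.sub ((Pf_cont s0).mul (Pf_cont s1))).continuousOn
  have z : 0 < Pf (C 0) (C 2) 0 * Pf (C 1) (C 3) 0 := by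
    unfold Pf
    have := Real.sqrt_nonneg ((C 0 - C 2) ^ 2 + 4 * (C 0 * C 2) * 0)
    have := Real.sqrt_nonneg ((C 1 - C 3) ^ 2 + 4 * (C 1 * C 3) * 0)
    exact mul_pos (div_pos (by norm_num) (by linarith)) (div_pos (by norm_num) (by linarith))
  obtain ⟨t, ht, hq⟩ := intermediate_value_Ioo (by norm_num) hc
    (show (0 : ℝ) ∈ Set.Ioo _ _ from ⟨by linarith, by simp [Pf]⟩)
  have hq' : Pf (C 0) (C 2) t * Pf (C 1) (C 3) t = t := by
    have : t - Pf (C 0) (C 2) t * Pf (C 1) (C 3) t = 0 := hq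
    linarith
  obtain ⟨P0, p1, p2, p3⟩ := Pf_spec h0 h2 s0 ht.1 ht.2
  obtain ⟨R0, r1, r2, r3⟩ := Pf_spec h1 h3 s1 ht.1 ht.2
  generalize Pf (C 0) (C 2) t = P at *
  generalize Pf (C 1) (C 3) t = R at *
  obtain ⟨a, a0, ha⟩ : ∃ a : ℝ, 0 < a ∧ a ^ 2 * (1 - C 2 * P) = (1 - C 1 * R) * R := by
    refine ⟨Real.sqrt ((1 - C 1 * R) * R / (1 - C 2 * P)), Real.sqrt_pos.2 (by positivity), ?_⟩
    rw [Real.sq_sqrt (by positivity)]
    field_simp
  obtain ⟨b, b0, hb⟩ : ∃ b : ℝ, 0 < b ∧ a * b = 1 - C 1 * R :=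
    ⟨(1 - C 1 * R) / a, by positivity, by field_simp⟩
  obtain ⟨c, c0, hc'⟩ : ∃ c : ℝ, 0 < c ∧ a * c = R := ⟨R / a, by positivity, by field_simp⟩
  obtain ⟨d, d0, hd⟩ : ∃ d : ℝ, 0 < d ∧ a * d = 1 - C 0 * P :=
    ⟨(1 - C 0 * P) / a, by positivity, by field_simp⟩
  have hbc : b * c = 1 - C 2 * P := by
    have : a ^ 2 * (b * c) = a ^ 2 * (1 - C 2 * P) := by rw [ha, ← hb, ← hc']; ring
    exact mul_left_cancel₀ (by positivity) this
  have hbd : b * d = P := by
    have : R * (b * d) = R * P := by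
      linear_combination (-(b * d)) * hc' + (b * c) * hd + (1 - C 0 * P) * hbc + p3 - hq'
    exact mul_left_cancel₀ R0.ne' this
  have hcd : c * d = 1 - C 3 * R := by
    have : (1 - C 1 * R) * (c * d) = (1 - C 1 * R) * (1 - C 3 * R) := by
      linear_combination (-(c * d)) * hb + (b * c) * hd + (1 - C 0 * P) * hbc + p3 - r3
    exact mul_left_cancel₀ r1.ne' this
  refine ⟨fun i => if i % 4 = 0 then a else if i % 4 = 1 then b else if i % 4 = 2 then c else d,
    ⟨fun i _ => ?_, fun n => ?_⟩, a + b + c + d, ?_⟩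
  · dsimp only
    split_ifs <;> assumption
  · obtain ⟨m, rfl | rfl | rfl | rfl⟩ : ∃ m, n = 4 * m + 0 ∨ n = 4 * m + 1 ∨
        n = 4 * m + 2 ∨ n = 4 * m + 3 := ⟨n / 4, by omega⟩
    · simp only [perk hp m 0, show (4 * m + 0 + 3) % 4 = 3 by omega,
        show (4 * m + 0 + 1) % 4 = 1 by omega, show (4 * m + 0) % 4 = 0 by omega]
      norm_num only [if_true, if_false]
      rw [eq_div_iff (by positivity)]
      linear_combination C 0 * hbd + hd
    · simp only [perk hp m 1, show (4 * m + 1 + 3) % 4 = 0 by omega,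
        show (4 * m + 1 + 1) % 4 = 2 by omega, show (4 * m + 1) % 4 = 1 by omega]
      norm_num only [if_true, if_false]
      rw [eq_div_iff (by positivity)]
      linear_combination C 1 * hc' + hb
    · simp only [perk hp m 2, show (4 * m + 2 + 3) % 4 = 1 by omega,
        show (4 * m + 2 + 1) % 4 = 3 by omega, show (4 * m + 2) % 4 = 2 by omega]
      norm_num only [if_true, if_false]
      rw [eq_div_iff (by positivity)]
      linear_combination C 2 * hbd + hbc
    · simp only [perk hp m 3, show (4 * m + 3 + 3) % 4 = 2 by omega,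
        show (4 * m + 3 + 1) % 4 = 0 by omega, show (4 * m + 3) % 4 = 3 by omega]
      norm_num only [if_true, if_false]
      rw [eq_div_iff (by positivity)]
      linear_combination C 3 * hc' + hcd
  · rintro _ ⟨i, rfl⟩
    dsimp only
    split_ifs <;> linarith

theorem fourU {C x : ℕ → ℝ} (hB : ∀ n, 0 ≤ C n) (r : ℕ) (c : ℝ) (hc : 0 < c)
    (h0 : ∀ m, C (2 * m + r) = 0) (h1 : ∀ m, c ≤ C (2 * m + r + 1) + C (2 * (m + 3) + r + 1))
    (hx : Sol C x) : ¬ BddAbove (Set.range x) := by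
  rintro ⟨M, hM⟩
  have px := pos hB hx
  have hM' : ∀ i, x i ≤ M := fun i => hM ⟨i, rfl⟩
  have M0 : 0 < M := (px 0).trans_le (hM' 0)
  have e0 : ∀ m, x (2 * m + r + 3) = 1 / x (2 * m + r) := fun m => by
    rw [hx.2, h0]; simp
  have lo : ∀ m, 1 / M ≤ x (2 * m + r) := fun m => by
    have a := hM' (2 * m + r + 3)
    rw [e0] at a
    exact (one_div_le M0 (px _)).2 a
  have st : ∀ m, x (2 * m + r + 1) + C (2 * m + r + 1) * (1 / M) ≤ x (2 * (m + 3) + r + 1) :=
    fun m => by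
    have a := e0 (m + 2)
    have b := hx.2 (2 * m + r + 1)
    rw [show 2 * (m + 3) + r + 1 = 2 * (m + 2) + r + 3 by ring, a,
      show 2 * (m + 2) + r = 2 * m + r + 1 + 3 by ring, b, one_div_one_div,
      show 2 * m + r + 1 + 1 = 2 * (m + 1) + r by ring]
    have := mul_le_mul_of_nonneg_left (lo (m + 1)) (hB (2 * m + r + 1))
    linarith
  have iM : 0 < 1 / M := by positivity
  have gr : ∀ j : ℕ, j * (c * (1 / M)) ≤ x (2 * (6 * j) + r + 1) := by
    intro j
    induction j with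
    | zero => simpa using (px _).le
    | succ j ih =>
      have := st (6 * j)
      have := st (6 * j + 3)
      have := mul_le_mul_of_nonneg_right (h1 (6 * j)) iM.le
      rw [show 6 * (j + 1) = 6 * j + 3 + 3 by ring]
      push_cast
      linarith
  have hp : 0 < c * (1 / M) := by positivity
  obtain ⟨j, hj⟩ := exists_nat_gt (M / (c * (1 / M)))
  rw [div_lt_iff₀ hp] at hj
  have := gr j
  have := hM' (2 * (6 * j) + r + 1)
  linarith

theorem fourN {C x : ℕ → ℝ} (hB : ∀ n, 0 ≤ C n) (hp : ∀ n, C (n + 4) = C n) (r : ℕ)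
    (h0 : C r + C (r + 2) = 0) (h1 : 0 < C (r + 1) + C (r + 3)) (hx : Sol C x) :
    ¬ BddAbove (Set.range x) := by
  have a := hB r
  have b := hB (r + 2)
  refine fourU hB r _ h1 (fun m => ?_) (fun m => ?_) hx
  · obtain ⟨k, rfl | rfl⟩ := Nat.even_or_odd' m
    · rw [show 2 * (2 * k) + r = 4 * k + r by ring, perk hp]; linarith
    · rw [show 2 * (2 * k + 1) + r = 4 * k + (r + 2) by ring, perk hp]; linarith
  · obtain ⟨k, rfl | rfl⟩ := Nat.even_or_odd' m
    · rw [show 2 * (2 * k) + r + 1 = 4 * k + (r + 1) by ring,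
        show 2 * (2 * k + 3) + r + 1 = 4 * (k + 1) + (r + 3) by ring, perk hp, perk hp]
    · rw [show 2 * (2 * k + 1) + r + 1 = 4 * k + (r + 3) by ring,
        show 2 * (2 * k + 1 + 3) + r + 1 = 4 * (k + 2) + (r + 1) by ring, perk hp, perk hp]
      linarith

theorem cop {C x : ℕ → ℝ} (hB : ∀ n, 0 < C n) (k : ℕ) (h5 : ¬ 5 ∣ k) (hp : ∀ n, C (n + k) = C n)
    (hx : Sol C x) : BddAbove (Set.range x) := by
  have hB' : ∀ n, 0 ≤ C n := fun n => (hB n).le
  have px := pos hB' hx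
  have k0 : 0 < k := by omega
  have md : ∀ n, C n = C (n % k) := fun n => by
    conv_lhs => rw [← Nat.div_add_mod n k]
    exact perk hp _ _
  set D : ℝ := ∑ i ∈ Finset.range k, (C i + 1 / C i) with hD
  have hDn : ∀ n, C n + 1 / C n ≤ D := fun n => by
    rw [md n]
    exact Finset.single_le_sum (f := fun i => C i + 1 / C i)
      (fun j _ => by have := hB j; positivity) (Finset.mem_range.2 (Nat.mod_lt _ k0))
  have D0 : 0 < D := lt_of_lt_of_le (by have := hB 0; positivity) (hDn 0)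
  have s5 : ∀ n, x (n + 1) ≤ 2 * D * x (n + 1 + 5) := fun n => by
    have a := px (n + 1)
    have e3 : x (n + 3) ≤ D * (1 / x (n + 1)) := by
      have c := hB n
      have : x (n + 3) ≤ 1 / C n * (1 / x (n + 1)) := by
        rw [hx.2, one_div_mul_one_div]
        exact one_div_le_one_div_of_le (by positivity) (by linarith [px n])
      refine this.trans (mul_le_mul_of_nonneg_right ?_ (by positivity))
      linarith [hDn n]
    have e4 : x (n + 4) ≤ 1 / x (n + 1) := by
      rw [show n + 4 = n + 1 + 3 by ring, hx.2]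
      exact one_div_le_one_div_of_le a (by nlinarith [mul_pos (hB (n + 1)) (px (n + 1 + 1))])
    have c3 := hB (n + 3)
    have c3' : C (n + 3) ≤ D := by
      have : 0 < 1 / C (n + 3) := by positivity
      linarith [hDn (n + 3)]
    have p3 := px (n + 3)
    have p4 := px (n + 4)
    have e : C (n + 3) * x (n + 4) + x (n + 3) ≤ 2 * D * (1 / x (n + 1)) := by
      have := mul_le_mul c3' e4 p4.le D0.le
      linarith
    rw [show n + 1 + 5 = n + 3 + 3 by ring, hx.2, show n + 3 + 1 = n + 4 by ring, mul_one_div,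
      le_div_iff₀ (by positivity)]
    have := mul_le_mul_of_nonneg_left e a.le
    have e' : x (n + 1) * (2 * D * (1 / x (n + 1))) = 2 * D := by field_simp
    linarith
  have sa : ∀ a n : ℕ, x (n + 1) ≤ (2 * D) ^ a * x (n + 1 + 5 * a) := by
    intro a n
    induction a with
    | zero => simp
    | succ a ih =>
      have := mul_le_mul_of_nonneg_left (s5 (n + 5 * a)) (show 0 ≤ (2 * D) ^ a by positivity)
      rw [show n + 5 * a + 1 = n + 1 + 5 * a by ring,
        show n + 1 + 5 * a + 5 = n + 1 + 5 * (a + 1) by ring] at this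
      rw [pow_succ]
      linarith
  have hy : Sol C (fun i => x (i + k)) := by
    refine ⟨fun i _ => px _, fun n => ?_⟩
    have := hx.2 (n + k)
    rw [hp] at this
    show x (n + 3 + k) = 1 / (C n * x (n + 1 + k) + x (n + k))
    rw [show n + 3 + k = n + k + 3 by ring, show n + 1 + k = n + k + 1 by ring]
    exact this
  obtain ⟨K, K0, hK⟩ := comp hB' hx hy
  have sb : ∀ b n : ℕ, x (n + k * b) ≤ K ^ b * x n := by
    intro b n
    induction b with
    | zero => simp
    | succ b ih =>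
      have h1 : x (n + k * b + k) ≤ K * x (n + k * b) := (hK (n + k * b)).1
      have := mul_le_mul_of_nonneg_left ih K0.le
      rw [show n + k * (b + 1) = n + k * b + k by ring, pow_succ]
      linarith
  obtain ⟨a, b, hab⟩ : ∃ a b : ℕ, 5 * a = 3 + k * b := by
    have : k % 5 = 1 ∨ k % 5 = 2 ∨ k % 5 = 3 ∨ k % 5 = 4 := by omega
    rcases this with h | h | h | h
    · exact ⟨(3 + k * 2) / 5, 2, by omega⟩
    · exact ⟨(3 + k * 1) / 5, 1, by omega⟩
    · exact ⟨(3 + k * 4) / 5, 4, by omega⟩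
    · exact ⟨(3 + k * 3) / 5, 3, by omega⟩
  set W : ℝ := (2 * D) ^ a * K ^ b with hW
  have W0 : 0 < W := by positivity
  have fin : ∀ n, x (n + 1) ≤ W + 1 := fun n => by
    have a0 := px (n + 1)
    have h1 := sa a n
    rw [hab, show n + 1 + (3 + k * b) = n + 4 + k * b by ring] at h1
    have h2 := mul_le_mul_of_nonneg_left (sb b (n + 4)) (show 0 ≤ (2 * D) ^ a by positivity)
    have e4 : x (n + 4) ≤ 1 / x (n + 1) := by
      rw [show n + 4 = n + 1 + 3 by ring, hx.2]
      exact one_div_le_one_div_of_le a0 (by nlinarith [mul_pos (hB (n + 1)) (px (n + 1 + 1))])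
    have h3 : x (n + 1) ≤ W * (1 / x (n + 1)) := by
      have := mul_le_mul_of_nonneg_left e4 W0.le
      rw [← mul_assoc, ← hW] at h2
      linarith
    rw [mul_one_div, le_div_iff₀ a0] at h3
    nlinarith
  refine ⟨x 0 + W + 1, ?_⟩
  rintro _ ⟨i, rfl⟩
  cases i with
  | zero => linarith
  | succ i => linarith [fin i, px 0]

theorem result (C : ℕ → ℝ) (hC : ∀ n, 0 ≤ C n) :
    ((∀ n, C (n + 2) = C n) → C 0 ≠ C 1 →
      ((∀ x, Sol C x → BddAbove (Set.range x)) ↔ (0 < C 0 ∧ 0 < C 1))) ∧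
    ((∀ n, C (n + 3) = C n) → ∀ x, Sol C x → BddAbove (Set.range x)) ∧
    ((∀ n, C (n + 4) = C n) → 0 < C 0 + C 1 + C 2 + C 3 →
      ((∀ x, Sol C x → BddAbove (Set.range x)) ↔ (0 < C 0 + C 2 ∧ 0 < C 1 + C 3))) ∧
    ((∀ n, C (n + 5) = C n) →
      ((∀ x, Sol C x → BddAbove (Set.range x)) ↔ ∀ n, 0 < E5 C n)) ∧
    (∀ k, ¬ 5 ∣ k → (∀ n, C (n + k) = C n) → (∀ n, 0 < C n) →
      ∀ x, Sol C x → BddAbove (Set.range x)) ∧
    ((∀ x, Sol C x → BddAbove (Set.range x)) ∨ (∀ x, Sol C x → ¬ BddAbove (Set.range x))) := by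
  refine ⟨fun hp hne => ⟨fun h => ?_, fun h => ?_⟩, fun hp => ?_,
    fun hp hs => ⟨fun h => ?_, fun h => ?_⟩, fun hp => ⟨fun h n => ?_, fun h => ?_⟩,
    fun k h5 hp h0 x hx => cop h0 k h5 hp hx, ?_⟩
  · obtain ⟨x, hx⟩ := exsol (C := C)
    by_contra hn
    rcases (hC 0).eq_or_lt with h0 | h0
    · have h1 : 0 < C 1 := lt_of_le_of_ne (hC 1) (fun e => hne (by rw [← h0, ← e]))
      exact twozero hC 0 (C 1) h1 (fun m => by rw [perk hp, ← h0])
        (fun m => by rw [add_zero, perk hp]) hx (h x hx)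
    · have h1 : C 1 = 0 := by
        rcases (hC 1).eq_or_lt with h1 | h1
        · exact h1.symm
        · exact absurd ⟨h0, h1⟩ hn
      exact twozero hC 1 (C 0) h0 (fun m => by rw [perk hp, h1])
        (fun m => by rw [show 2 * m + 1 + 1 = 2 * (m + 1) + 0 by ring, perk hp]) hx (h x hx)
  · obtain ⟨x, hx, hb⟩ := twopos hp h.1 h.2
    exact allb hC hx hb
  · obtain ⟨x, hx, hb⟩ := three hC hp
    exact allb hC hx hb
  · obtain ⟨x, hx⟩ := exsol (C := C)
    have c4 : C 4 = C 0 := hp 0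
    have q0 := add_nonneg (hC 0) (hC 2)
    have q1 := add_nonneg (hC 1) (hC 3)
    constructor
    · refine lt_of_le_of_ne q0 fun e => ?_
      exact fourN hC hp 0 e.symm (show 0 < C 1 + C 3 by linarith) hx (h x hx)
    · refine lt_of_le_of_ne q1 fun e => ?_
      exact fourN hC hp 1 e.symm (show 0 < C 2 + C 4 by linarith) hx (h x hx)
  · obtain ⟨x, hx, hb⟩ := fourS hC hp h.1 h.2
    exact allb hC hx hb
  · obtain ⟨x, hx⟩ := exsol (C := C)
    exact fiveN hC hp hx (h x hx) n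
  · obtain ⟨x, hx, hb⟩ := fiveS hC hp h
    exact allb hC hx hb
  · by_cases h : ∃ x, Sol C x ∧ BddAbove (Set.range x)
    · obtain ⟨x, hx, hb⟩ := h
      exact Or.inl (allb hC hx hb)
    · exact Or.inr fun x hx hb => h ⟨x, hx, hb⟩

end Pool.Agent.Results.MP_aa7c57_an.Dich
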